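import Pool.Agent.H60.SYM.Targets

/-!
Module FOU of the SYM project (MP_c62aed_lc).
-/

set_option autoImplicit false

open Finset

namespace Pool.Agent.H27.SYM

open Pool.Agent.H60.SYM

/-- the sign of a bit -/
noncomputable def sgn (b : ZMod 2) : ℝ := if b = 0 then 1 else -1

lemma sgn_zero : sgn 0 = 1 := by simp [sgn]

lemma sgn_add (a b : ZMod 2) : sgn (a + b) = sgn a * sgn b := by
  have h : ∀ a b : ZMod 2, (a + b = 0 ↔ a = b) := by decide
  have h2 : ∀ a b : ZMod 2, a ≠ 0 → b ≠ 0 → a = b := by decide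
  rw [sgn, sgn, sgn]
  by_cases ha : a = 0
  · subst ha
    simp
  · by_cases hb : b = 0
    · subst hb
      simp
    · rw [if_neg ha, if_neg hb, if_pos ((h a b).2 (h2 a b ha hb))]
      norm_num

lemma sgn_sum {ι : Type} (s : Finset ι) (f : ι → ZMod 2) :
    sgn (∑ i ∈ s, f i) = ∏ i ∈ s, sgn (f i) := by
  classical
  induction s using Finset.induction_on with
  | empty => simp [sgn_zero]
  | insert a s ha ih => rw [sum_insert ha, prod_insert ha, sgn_add, ih]

lemma abs_sgn (b : ZMod 2) : |sgn b| = 1 := by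
  rw [sgn]
  split_ifs <;> simp

section OnePart

variable {A : Type} [Fintype A] [DecidableEq A]

lemma char_sum (b : A → ZMod 2) :
    ∑ S ∈ (univ : Finset A).powerset, ∏ v ∈ S, sgn (b v) =
      if ∀ v, b v = 0 then (2 : ℝ) ^ Fintype.card A else 0 := by
  rw [← Finset.prod_one_add]
  split_ifs with h
  · have : ∀ v ∈ (univ : Finset A), (1 + sgn (b v) : ℝ) = 2 := by
      intro v _
      rw [h v, sgn_zero]
      norm_num
    rw [prod_congr rfl this, prod_const, card_univ]
  · push Not at h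
    obtain ⟨v, hv⟩ := h
    refine prod_eq_zero (mem_univ v) ?_
    rw [sgn, if_neg hv]
    norm_num

lemma char_f {M : ℕ} (y : Fin M → ZMod 2) (f : Fin M → A) (S : Finset A) :
    ∏ v ∈ S, sgn (∑ i, if f i = v then y i else 0) =
      ∏ i, if f i ∈ S then sgn (y i) else 1 := by
  simp only [sgn_sum]
  rw [prod_comm]
  refine prod_congr rfl fun i _ => ?_
  split_ifs with h
  · rw [prod_eq_single (f i)]
    · simp
    · intro v _ hv
      rw [if_neg (Ne.symm hv), sgn_zero]
    · intro h'
      exact absurd h h'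
  · refine prod_eq_one fun v hv => ?_
    rw [if_neg, sgn_zero]
    rintro rfl
    exact h hv

lemma char_sum_f {M : ℕ} (y : Fin M → ZMod 2) (S : Finset A) :
    ∑ f : Fin M → A, ∏ i, (if f i ∈ S then sgn (y i) else 1) =
      (Fintype.card A : ℝ) ^ (M - wt y) * ((Fintype.card A : ℝ) - 2 * S.card) ^ wt y := by
  have h1 : ∑ f : Fin M → A, ∏ i, (if f i ∈ S then sgn (y i) else 1) =
      ∏ i : Fin M, ∑ v : A, (if v ∈ S then sgn (y i) else 1) := by
    rw [Finset.prod_univ_sum]
    simp
  have h2 : ∀ i : Fin M, ∑ v : A, (if v ∈ S then sgn (y i) else 1) =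
      if y i ≠ 0 then ((Fintype.card A : ℝ) - 2 * S.card) else (Fintype.card A : ℝ) := by
    intro i
    rw [sum_ite, sum_const, sum_const, nsmul_eq_mul, nsmul_eq_mul]
    have e1 : (univ.filter fun v => v ∈ S) = S := by ext; simp
    have e2 : ((univ.filter fun v => v ∉ S).card : ℝ) = (Fintype.card A : ℝ) - S.card := by
      have : (univ.filter fun v => v ∉ S) = Sᶜ := by ext; simp
      rw [this, card_compl, Nat.cast_sub (card_le_univ S)]
    rw [e1, e2]
    split_ifs with h
    · rw [sgn, if_neg h]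
      ring
    · rw [not_not] at h
      rw [h, sgn_zero]
      ring
  rw [h1, prod_congr rfl fun i _ => h2 i, prod_ite, prod_const, prod_const, mul_comm]
  have e3 : (univ.filter fun i => ¬ y i ≠ 0).card = M - wt y := by
    have := card_filter_add_card_filter_not (s := (univ : Finset (Fin M)))
      (fun i => y i ≠ 0)
    rw [card_univ, Fintype.card_fin] at this
    have hw : wt y = (univ.filter fun i => y i ≠ 0).card := rfl
    omega
  rw [e3]
  rfl

lemma wt_le {M : ℕ} (y : Fin M → ZMod 2) : wt y ≤ M := by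
  rw [wt]
  exact (card_le_univ _).trans (by simp)

theorem one_part (hBIN : T_BIN) {M : ℕ} (y : Fin M → ZMod 2) (z : A → ZMod 2)
    (hN : 0 < Fintype.card A) :
    ((univ.filter fun f : Fin M → A => ∀ v, (∑ i, if f i = v then y i else 0) = z v).card : ℝ) ≤
      (Fintype.card A : ℝ) ^ M * (2 / 2 ^ Fintype.card A *
        (1 + Real.exp (-(2 * wt y / Fintype.card A))) ^ Fintype.card A) := by
  obtain ⟨N, hNe⟩ : ∃ N : ℕ, N = Fintype.card A := ⟨_, rfl⟩
  have h2 : ∀ a b : ZMod 2, (a + b = 0 ↔ a = b) := by decide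
  have key : (2 : ℝ) ^ N * ((univ.filter fun f : Fin M → A =>
      ∀ v, (∑ i, if f i = v then y i else 0) = z v).card : ℝ) =
      ∑ S ∈ (univ : Finset A).powerset, (∏ v ∈ S, sgn (z v)) *
        ((N : ℝ) ^ (M - wt y) * ((N : ℝ) - 2 * S.card) ^ wt y) := by
    rw [Finset.card_filter, Nat.cast_sum, mul_sum]
    have e1 : ∀ f ∈ (univ : Finset (Fin M → A)),
        (2 : ℝ) ^ N * ((if ∀ v, (∑ i, if f i = v then y i else 0) = z v then 1 else 0 : ℕ) : ℝ) =
        ∑ S ∈ (univ : Finset A).powerset, (∏ v ∈ S, sgn (z v)) *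
          ∏ i, (if f i ∈ S then sgn (y i) else 1) := by
      intro f _
      have e2 : ∀ S ∈ (univ : Finset A).powerset, (∏ v ∈ S, sgn (z v)) *
          ∏ i, (if f i ∈ S then sgn (y i) else 1) =
          ∏ v ∈ S, sgn ((∑ i, if f i = v then y i else 0) + z v) := by
        intro S _
        rw [← char_f y f S, ← prod_mul_distrib]
        refine prod_congr rfl fun v _ => ?_
        rw [sgn_add, mul_comm]
      rw [sum_congr rfl e2, char_sum]
      simp only [h2]
      rw [hNe]
      split_ifs <;> simp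
    rw [sum_congr rfl e1, sum_comm]
    refine sum_congr rfl fun S _ => ?_
    rw [← mul_sum, char_sum_f, hNe]
  have hb := hBIN N (wt y) (hNe ▸ hN)
  have hN0 : (0 : ℝ) < N := by rw [hNe]; exact_mod_cast hN
  have h3 : (2 : ℝ) ^ N * ((univ.filter fun f : Fin M → A =>
      ∀ v, (∑ i, if f i = v then y i else 0) = z v).card : ℝ) ≤
      (N : ℝ) ^ (M - wt y) * (2 * (N : ℝ) ^ wt y * (1 + Real.exp (-(2 * wt y / N))) ^ N) := by
    rw [key]
    calc ∑ S ∈ (univ : Finset A).powerset, (∏ v ∈ S, sgn (z v)) *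
          ((N : ℝ) ^ (M - wt y) * ((N : ℝ) - 2 * S.card) ^ wt y)
        ≤ ∑ S ∈ (univ : Finset A).powerset, (N : ℝ) ^ (M - wt y) *
          |(N : ℝ) - 2 * S.card| ^ wt y := by
          refine sum_le_sum fun S _ => (le_abs_self _).trans (le_of_eq ?_)
          rw [abs_mul, abs_mul, abs_prod, abs_pow, abs_pow, abs_of_pos hN0]
          simp [abs_sgn]
      _ = (N : ℝ) ^ (M - wt y) * ∑ S ∈ (univ : Finset A).powerset,
          |(N : ℝ) - 2 * S.card| ^ wt y := by rw [mul_sum]
      _ = (N : ℝ) ^ (M - wt y) * ∑ i ∈ range (N + 1), (N.choose i : ℝ) *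
          |(N : ℝ) - 2 * i| ^ wt y := by
          rw [Finset.sum_powerset_apply_card (fun k : ℕ => |(N : ℝ) - 2 * k| ^ wt y),
            card_univ, ← hNe]
          simp only [nsmul_eq_mul]
      _ ≤ _ := mul_le_mul_of_nonneg_left hb (by positivity)
  rw [← hNe]
  have h4 : (0 : ℝ) < 2 ^ N := by positivity
  refine le_of_mul_le_mul_left ?_ h4
  refine h3.trans (le_of_eq ?_)
  have h5 : (N : ℝ) ^ M = (N : ℝ) ^ (M - wt y) * (N : ℝ) ^ wt y := by
    rw [← pow_add, Nat.sub_add_cancel (wt_le y)]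
  rw [h5]
  field_simp

end OnePart

/-- the parts -/
abbrev Part (n d : ℕ) (p : Fin (d + 1)) : Type := {v : Fin n // (v : ℕ) % (d + 1) = p}

lemma part_pos {n d : ℕ} (h : d + 1 ≤ n) (p : Fin (d + 1)) : 0 < Fintype.card (Part n d p) :=
  Fintype.card_pos_iff.2 ⟨⟨⟨p, p.2.trans_le h⟩, Nat.mod_eq_of_lt p.2⟩⟩

lemma part_sum (n d : ℕ) : ∑ p, Fintype.card (Part n d p) = n := by
  have h : ∑ p : Fin (d + 1), Fintype.card (Part n d p) =
      ∑ p : Fin (d + 1), (univ.filter fun v : Fin n =>
        (⟨(v : ℕ) % (d + 1), Nat.mod_lt _ (Nat.succ_pos d)⟩ : Fin (d + 1)) = p).card := by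
    refine sum_congr rfl fun p _ => ?_
    rw [Fintype.card_subtype]
    congr 1
    ext v
    simp [Fin.ext_iff]
  rw [h, ← Finset.card_eq_sum_card_fiberwise (t := univ) (fun _ _ => mem_univ _), card_univ,
    Fintype.card_fin]

lemma part_le {n d : ℕ} (h : d + 1 ≤ n) (p : Fin (d + 1)) :
    Fintype.card (Part n d p) * (d + 1) ≤ n + d + 1 := by
  have h1 : Fintype.card (Part n d p) ≤ Fintype.card (Fin ((n - 1) / (d + 1) + 1)) := by
    refine Fintype.card_le_of_injective (fun v => ⟨(v.1 : ℕ) / (d + 1), ?_⟩) ?_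
    · have : (v.1 : ℕ) ≤ n - 1 := by have := v.1.2; omega
      exact Nat.lt_succ_of_le (Nat.div_le_div_right this)
    · intro v v' e
      have e1 : (v.1 : ℕ) / (d + 1) = (v'.1 : ℕ) / (d + 1) := by simpa [Fin.ext_iff] using e
      have e2 : (v.1 : ℕ) % (d + 1) = (v'.1 : ℕ) % (d + 1) := by rw [v.2, v'.2]
      have e3 : (v.1 : ℕ) = v'.1 := by
        rw [← Nat.div_add_mod (v.1 : ℕ) (d + 1), ← Nat.div_add_mod (v'.1 : ℕ) (d + 1), e1, e2]
      exact Subtype.ext (Fin.ext e3)
  rw [Fintype.card_fin] at h1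
  have h2 := Nat.mul_le_mul_right (d + 1) h1
  have h3 : (n - 1) / (d + 1) * (d + 1) ≤ n - 1 := Nat.div_mul_le_self _ _
  rw [add_mul, one_mul] at h2
  omega

/-- partite systems are families of maps to the parts -/
def partEquiv (n d M : ℕ) : {e : Fin M → Fin (d + 1) → Fin n // Partite e} ≃
    (∀ p : Fin (d + 1), Fin M → Part n d p) where
  toFun e p i := ⟨e.1 i p, e.2 i p⟩
  invFun f := ⟨fun i p => (f p i).1, fun i p => (f p i).2⟩
  left_inv _ := rfl
  right_inv _ := rfl

lemma comb_part {n d M : ℕ} {e : Fin M → Fin (d + 1) → Fin n} (he : Partite e)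
    (y : Fin M → ZMod 2) (p : Fin (d + 1)) (v : Part n d p) :
    comb e y v.1 = ∑ i, if (⟨e i p, he i p⟩ : Part n d p) = v then y i else 0 := by
  rw [comb]
  refine sum_congr rfl fun i _ => ?_
  rw [sum_eq_single p]
  · simp only [Subtype.ext_iff]
  · intro p' _ hp'
    rw [if_neg]
    intro h
    apply hp'
    have h1 := he i p'
    rw [h, v.2] at h1
    exact (Fin.ext h1).symm
  · intro h
    exact absurd (mem_univ p) h

theorem fou (hBIN : T_BIN) : T_FOU := by
  classical
  intro n d M y z hdn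
  have hc1 : Nat.card {e : Fin M → Fin (d + 1) → Fin n // Partite e} =
      ∏ p : Fin (d + 1), Fintype.card (Part n d p) ^ M := by
    rw [Nat.card_congr (partEquiv n d M), Nat.card_eq_fintype_card, Fintype.card_pi]
    simp
  have hc2 : Nat.card {e : Fin M → Fin (d + 1) → Fin n // Partite e ∧ comb e y = z} ≤
      ∏ p : Fin (d + 1), (univ.filter fun f : Fin M → Part n d p =>
        ∀ v, (∑ i, if f i = v then y i else 0) = z v.1).card := by
    have h1 : Nat.card {e : Fin M → Fin (d + 1) → Fin n // Partite e ∧ comb e y = z} ≤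
        Nat.card (∀ p : Fin (d + 1), {f : Fin M → Part n d p //
          ∀ v, (∑ i, if f i = v then y i else 0) = z v.1}) := by
      refine Nat.card_le_card_of_injective (fun e p => ⟨fun i => ⟨e.1 i p, e.2.1 i p⟩, fun v => ?_⟩)
        ?_
      · rw [← comb_part e.2.1 y p v, e.2.2]
      · intro e e' h
        apply Subtype.ext
        funext i p
        have h2 := congrFun h p
        have h3 := congrArg Subtype.val h2
        have h4 := congrFun h3 i
        exact congrArg Subtype.val h4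
    refine h1.trans (le_of_eq ?_)
    rw [Nat.card_eq_fintype_card, Fintype.card_pi]
    refine prod_congr rfl fun p _ => ?_
    rw [Fintype.card_subtype]
  rw [hc1]
  refine (Nat.cast_le.2 hc2).trans ?_
  rw [Nat.cast_prod, Nat.cast_prod]
  obtain ⟨E, hE⟩ : ∃ E : ℝ, E = Real.exp (-(2 * wt y * (d + 1) / (n + d + 1))) := ⟨_, rfl⟩
  rw [← hE]
  have hE0 : 0 < E := hE ▸ Real.exp_pos _
  have h5 : ∀ p ∈ (univ : Finset (Fin (d + 1))), ((univ.filter fun f : Fin M → Part n d p =>
      ∀ v, (∑ i, if f i = v then y i else 0) = z v.1).card : ℝ) ≤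
      ((Fintype.card (Part n d p) ^ M : ℕ) : ℝ) * (2 / 2 ^ Fintype.card (Part n d p) *
        (1 + E) ^ Fintype.card (Part n d p)) := by
    intro p _
    have hpos := part_pos hdn p
    refine (one_part hBIN y (fun v : Part n d p => z v.1) hpos).trans ?_
    rw [Nat.cast_pow]
    refine mul_le_mul_of_nonneg_left ?_ (by positivity)
    refine mul_le_mul_of_nonneg_left ?_ (by positivity)
    refine pow_le_pow_left₀ (by positivity) ?_ _
    have hN0 : (0 : ℝ) < Fintype.card (Part n d p) := by exact_mod_cast hpos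
    have hle : (Fintype.card (Part n d p) : ℝ) * (d + 1) ≤ n + d + 1 := by
      exact_mod_cast part_le hdn p
    rw [hE]
    have h6 : 2 * (wt y : ℝ) * (d + 1) / (n + d + 1) ≤
        2 * (wt y : ℝ) / Fintype.card (Part n d p) := by
      rw [div_le_div_iff₀ (by positivity) hN0]
      calc 2 * (wt y : ℝ) * (d + 1) * Fintype.card (Part n d p) =
            2 * (wt y : ℝ) * (Fintype.card (Part n d p) * (d + 1)) := by ring
        _ ≤ 2 * (wt y : ℝ) * (n + d + 1) := mul_le_mul_of_nonneg_left hle (by positivity)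
    have := Real.exp_le_exp.2 (neg_le_neg h6)
    linarith
  refine (prod_le_prod (fun p _ => Nat.cast_nonneg _) h5).trans (le_of_eq ?_)
  rw [prod_mul_distrib, prod_mul_distrib, prod_div_distrib, prod_const, card_univ,
    Fintype.card_fin, prod_pow_eq_pow_sum, prod_pow_eq_pow_sum, part_sum]

end Pool.Agent.H27.SYM
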