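import Pool.Agent.H60.SYM.Targets

/-!
Module MAT of the SYM project (MP_c62aed_lc).
-/

set_option autoImplicit false

open Finset

namespace Pool.Agent.H27.SYM

open Pool.Agent.H60.SYM

lemma sum_wt (M : ℕ) (q : ℝ) : ∑ y : Fin M → ZMod 2, q ^ wt y = (1 + q) ^ M := by
  have h1 : ∀ y : Fin M → ZMod 2, q ^ wt y = ∏ i, if y i ≠ 0 then q else 1 := by
    intro y
    rw [prod_ite, prod_const, prod_const_one, mul_one]
    rfl
  rw [sum_congr rfl fun y _ => h1 y]
  have h2 : ∑ y : Fin M → ZMod 2, ∏ i, (if y i ≠ 0 then q else 1) =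
      ∏ _i : Fin M, ∑ b : ZMod 2, (if b ≠ 0 then q else 1) := by
    rw [Finset.prod_univ_sum]
    simp
  have h3 : ∑ b : ZMod 2, (if b ≠ 0 then q else (1 : ℝ)) = 1 + q := by
    have : (univ : Finset (ZMod 2)) = {0, 1} := by decide
    rw [this, sum_pair (by decide)]
    simp
  rw [h2, h3, prod_const, card_univ, Fintype.card_fin]

/-- number of vectors of small weight -/
lemma card_small {M : ℕ} {q s : ℝ} (hq0 : 0 < q) (hq1 : q ≤ 1) (Y : Finset (Fin M → ZMod 2))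
    (hY : ∀ y ∈ Y, (wt y : ℝ) ≤ s) :
    (Y.card : ℝ) * Real.exp (s * Real.log q) ≤ Real.exp (q * M) := by
  have h1 : ∀ y ∈ Y, Real.exp (s * Real.log q) ≤ q ^ wt y := by
    intro y hy
    have hl : Real.log q ≤ 0 := Real.log_nonpos hq0.le hq1
    rw [← Real.exp_log (pow_pos hq0 (wt y)), Real.log_pow]
    refine Real.exp_le_exp.2 ?_
    nlinarith [hY y hy]
  calc (Y.card : ℝ) * Real.exp (s * Real.log q) = ∑ y ∈ Y, Real.exp (s * Real.log q) := by
        rw [sum_const, nsmul_eq_mul]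
    _ ≤ ∑ y ∈ Y, q ^ wt y := sum_le_sum h1
    _ ≤ ∑ y : Fin M → ZMod 2, q ^ wt y :=
        sum_le_sum_of_subset_of_nonneg (subset_univ _) fun y _ _ => by positivity
    _ = (1 + q) ^ M := sum_wt M q
    _ ≤ Real.exp q ^ M := pow_le_pow_left₀ (by linarith) (by
        have := Real.add_one_le_exp q
        linarith) M
    _ = Real.exp (q * M) := by rw [← Real.exp_nat_mul, mul_comm]

lemma partite_inj {M n d : ℕ} {e : Fin M → Fin (d + 1) → Fin n} (he : Partite e) (i : Fin M) :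
    Function.Injective (e i) := by
  intro p p' h
  have h1 := he i p
  rw [h, he i p'] at h1
  exact (Fin.ext h1).symm

lemma partite_pos (M n d : ℕ) (h : d + 1 ≤ n) :
    0 < Nat.card {e : Fin M → Fin (d + 1) → Fin n // Partite e} := by
  have : Nonempty {e : Fin M → Fin (d + 1) → Fin n // Partite e} :=
    ⟨⟨fun _ p => ⟨p, p.2.trans_le h⟩, fun _ p => Nat.mod_eq_of_lt p.2⟩⟩
  exact Nat.card_pos

/-- the union bound -/
lemma union_bound {M n d : ℕ} (Y : Finset (Fin M → ZMod 2)) (B : Finset (Fin n → ZMod 2)) {c : ℝ}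
    (hc : ∀ y ∈ Y, ∀ z ∈ B,
      (Nat.card {e : Fin M → Fin (d + 1) → Fin n // Partite e ∧ comb e y = z} : ℝ) ≤
        Nat.card {e : Fin M → Fin (d + 1) → Fin n // Partite e} * c)
    (hn : d + 1 ≤ n) (hlt : (Y.card : ℝ) * B.card * c < 1) :
    ∃ e : Fin M → Fin (d + 1) → Fin n, Partite e ∧ ∀ y ∈ Y, comb e y ∉ B := by
  classical
  by_contra hcon
  push Not at hcon
  have hpos : (0 : ℝ) < Nat.card {e : Fin M → Fin (d + 1) → Fin n // Partite e} := by
    exact_mod_cast partite_pos M n d hn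
  have h1 : (univ.filter fun e : Fin M → Fin (d + 1) → Fin n => Partite e) ⊆
      Y.biUnion fun y => B.biUnion fun z =>
        univ.filter fun e : Fin M → Fin (d + 1) → Fin n => Partite e ∧ comb e y = z := by
    intro e he
    rw [mem_filter] at he
    obtain ⟨y, hy, hz⟩ := hcon e he.2
    simp only [mem_biUnion, mem_filter]
    exact ⟨y, hy, comb e y, hz, mem_univ _, he.2, rfl⟩
  have h2 : (Nat.card {e : Fin M → Fin (d + 1) → Fin n // Partite e} : ℝ) ≤
      ∑ y ∈ Y, ∑ z ∈ B,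
        (Nat.card {e : Fin M → Fin (d + 1) → Fin n // Partite e ∧ comb e y = z} : ℝ) := by
    have h3 := (card_le_card h1).trans (card_biUnion_le.trans (sum_le_sum fun y _ =>
      card_biUnion_le))
    rw [Nat.card_eq_fintype_card, Fintype.card_subtype]
    have h4 : (((univ.filter fun e : Fin M → Fin (d + 1) → Fin n => Partite e).card : ℕ) : ℝ) ≤
        ((∑ y ∈ Y, ∑ z ∈ B, (univ.filter fun e : Fin M → Fin (d + 1) → Fin n =>
          Partite e ∧ comb e y = z).card : ℕ) : ℝ) := Nat.cast_le.2 h3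
    refine h4.trans (le_of_eq ?_)
    rw [Nat.cast_sum]
    refine sum_congr rfl fun y _ => ?_
    rw [Nat.cast_sum]
    refine sum_congr rfl fun z _ => ?_
    rw [Nat.card_eq_fintype_card, Fintype.card_subtype]
  have h5 : ∑ y ∈ Y, ∑ z ∈ B,
        (Nat.card {e : Fin M → Fin (d + 1) → Fin n // Partite e ∧ comb e y = z} : ℝ) ≤
      ∑ y ∈ Y, ∑ z ∈ B, (Nat.card {e : Fin M → Fin (d + 1) → Fin n // Partite e} * c : ℝ) :=
    sum_le_sum fun y hy => sum_le_sum fun z hz => hc y hy z hz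
  rw [sum_const, sum_const, nsmul_eq_mul, nsmul_eq_mul] at h5
  have h6 := h2.trans h5
  have h7 : (Nat.card {e : Fin M → Fin (d + 1) → Fin n // Partite e} : ℝ) *
      ((Y.card : ℝ) * B.card * c) < Nat.card {e : Fin M → Fin (d + 1) → Fin n // Partite e} * 1 :=
    mul_lt_mul_of_pos_left hlt hpos
  nlinarith

lemma num_mat {δ : ℝ} {n d : ℕ} (h : (d : ℝ) + 3 ≤ δ ^ 2 * n) {a b c : ℝ} (hb : 0 ≤ b) (hc : 0 ≤ c)
    (h1 : a * Real.exp (-(δ ^ 2 * n / 4)) ≤ Real.exp (δ ^ 2 * n / 4))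
    (h2 : b ≤ 2 * 2 ^ n * Real.exp (-(2 * δ ^ 2 * n)))
    (h3 : c ≤ 2 ^ (d + 1) / 2 ^ n * Real.exp (δ ^ 2 * n / 2)) :
    a * b * c < 1 := by
  have ha : a ≤ Real.exp (δ ^ 2 * n / 2) := by
    have h4 := mul_le_mul_of_nonneg_right h1 (Real.exp_pos (δ ^ 2 * n / 4)).le
    rw [mul_assoc, ← Real.exp_add, ← Real.exp_add, neg_add_cancel, Real.exp_zero, mul_one] at h4
    refine h4.trans (le_of_eq ?_)
    congr 1
    ring
  have h2e : (2 : ℝ) ≤ Real.exp 1 := by
    have := Real.add_one_le_exp (1 : ℝ)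
    linarith
  have h5 : (2 : ℝ) ^ (d + 2) ≤ Real.exp (d + 2) := by
    calc (2 : ℝ) ^ (d + 2) ≤ Real.exp 1 ^ (d + 2) := pow_le_pow_left₀ (by norm_num) h2e _
      _ = Real.exp (d + 2) := by
        rw [← Real.exp_nat_mul]
        push_cast
        ring_nf
  have hA : 0 < Real.exp (δ ^ 2 * n / 2) := Real.exp_pos _
  calc a * b * c ≤ Real.exp (δ ^ 2 * n / 2) * (2 * 2 ^ n * Real.exp (-(2 * δ ^ 2 * n))) *
        (2 ^ (d + 1) / 2 ^ n * Real.exp (δ ^ 2 * n / 2)) := by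
        refine mul_le_mul ?_ h3 hc (by positivity)
        exact mul_le_mul ha h2 hb hA.le
    _ = 2 ^ (d + 2) * (Real.exp (δ ^ 2 * n / 2) * Real.exp (-(2 * δ ^ 2 * n)) *
        Real.exp (δ ^ 2 * n / 2)) := by
        have : (2 : ℝ) ^ n ≠ 0 := by positivity
        field_simp
        ring
    _ = 2 ^ (d + 2) * Real.exp (-(δ ^ 2 * n)) := by
        rw [← Real.exp_add, ← Real.exp_add]
        ring_nf
    _ ≤ Real.exp (d + 2) * Real.exp (-(δ ^ 2 * n)) :=
        mul_le_mul_of_nonneg_right h5 (Real.exp_pos _).le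
    _ = Real.exp (d + 2 - δ ^ 2 * n) := by rw [← Real.exp_add]; ring_nf
    _ < 1 := by
        rw [Real.exp_lt_one_iff]
        linarith

theorem mat_small (hFOU : T_FOU) (hHOEF : T_HOEF) {δ : ℝ} (hδ : 0 < δ) (hδ1 : δ ≤ 1) (K : ℕ)
    (hK : 0 < K) : ∃ α : ℝ, 0 < α ∧ α ≤ 1 / 4 ∧ ∃ d₀ : ℕ, ∀ d ≥ d₀, ∃ n₀ : ℕ,
    ∀ n ≥ n₀, ∃ e : Fin (K * n) → Fin (d + 1) → Fin n,
      (∀ i, Function.Injective (e i)) ∧
      ∀ y : Fin (K * n) → ZMod 2, α * n / 8 ≤ wt y → wt y ≤ α * n →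
        |(wt (comb e y) : ℝ) - n / 2| ≤ δ * n := by
  classical
  have hK0 : (0 : ℝ) < K := by exact_mod_cast hK
  have hK1 : (1 : ℝ) ≤ K := by exact_mod_cast hK
  obtain ⟨q, hq⟩ : ∃ q : ℝ, q = δ ^ 2 / (4 * K) := ⟨_, rfl⟩
  have hδ2 : δ ^ 2 ≤ 1 := pow_le_one₀ hδ.le hδ1
  have hq0 : 0 < q := by rw [hq]; positivity
  have hq1 : q ≤ 1 := by
    rw [hq, div_le_one (by positivity)]
    linarith
  obtain ⟨L, hL⟩ : ∃ L : ℝ, L = -Real.log q := ⟨_, rfl⟩
  have hL0 : 0 ≤ L := by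
    rw [hL]
    have := Real.log_nonpos hq0.le hq1
    linarith
  obtain ⟨α, hα⟩ : ∃ α : ℝ, α = min (1 / 4) (δ ^ 2 / (4 * (L + 1))) := ⟨_, rfl⟩
  have hα0 : 0 < α := by rw [hα]; exact lt_min (by norm_num) (by positivity)
  have hα4 : α ≤ 1 / 4 := by rw [hα]; exact min_le_left _ _
  have hαL : α * L ≤ δ ^ 2 / 4 := by
    have h1 : α ≤ δ ^ 2 / (4 * (L + 1)) := by rw [hα]; exact min_le_right _ _
    calc α * L ≤ δ ^ 2 / (4 * (L + 1)) * L := mul_le_mul_of_nonneg_right h1 hL0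
      _ = δ ^ 2 / 4 * (L / (L + 1)) := by field_simp
      _ ≤ δ ^ 2 / 4 * 1 := by
          refine mul_le_mul_of_nonneg_left ?_ (by positivity)
          rw [div_le_one (by positivity)]
          linarith
      _ = δ ^ 2 / 4 := mul_one _
  refine ⟨α, hα0, hα4, ?_⟩
  have ht : Filter.Tendsto (fun d : ℕ => Real.exp (-(α * ((d : ℝ) + 1) / 8))) Filter.atTop
      (nhds 0) := by
    refine Real.tendsto_exp_neg_atTop_nhds_zero.comp ?_
    refine Filter.Tendsto.atTop_div_const (by norm_num) ?_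
    refine Filter.Tendsto.const_mul_atTop hα0 ?_
    exact Filter.tendsto_atTop_add_const_right _ _ tendsto_natCast_atTop_atTop
  obtain ⟨d₀, hd₀⟩ := Filter.eventually_atTop.1 (ht.eventually_le_const
    (show (0 : ℝ) < δ ^ 2 / 2 by positivity))
  refine ⟨d₀, fun d hd => ⟨max (d + 1) ⌈((d : ℝ) + 3) / δ ^ 2⌉₊, fun n hn => ?_⟩⟩
  have hdn : d + 1 ≤ n := (le_max_left _ _).trans hn
  have hn3 : (d : ℝ) + 3 ≤ δ ^ 2 * n := by
    have h1 : ((d : ℝ) + 3) / δ ^ 2 ≤ n :=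
      (Nat.le_ceil _).trans (Nat.cast_le.2 ((le_max_right _ _).trans hn))
    rw [div_le_iff₀ (by positivity)] at h1
    linarith
  have hn1 : 0 < n := by omega
  have hn0 : (0 : ℝ) < n := by exact_mod_cast hn1
  have hexp := hd₀ d hd
  obtain ⟨Y, hY⟩ : ∃ Y : Finset (Fin (K * n) → ZMod 2), Y = univ.filter fun y =>
    α * n / 8 ≤ wt y ∧ (wt y : ℝ) ≤ α * n := ⟨_, rfl⟩
  obtain ⟨B, hB⟩ : ∃ B : Finset (Fin n → ZMod 2), B = univ.filter fun z =>
    δ * n ≤ |(wt z : ℝ) - Fintype.card (Fin n) / 2| := ⟨_, rfl⟩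
  have hYc : (Y.card : ℝ) * Real.exp (-(δ ^ 2 * n / 4)) ≤ Real.exp (δ ^ 2 * n / 4) := by
    have h1 := card_small hq0 hq1 Y (s := α * n) (fun y hy => by
      rw [hY, mem_filter] at hy
      exact hy.2.2)
    have h2 : Real.exp (q * (K * n : ℕ)) = Real.exp (δ ^ 2 * n / 4) := by
      congr 1
      rw [hq]
      push_cast
      field_simp
    rw [h2] at h1
    refine le_trans (mul_le_mul_of_nonneg_left (Real.exp_le_exp.2 ?_) (Nat.cast_nonneg _)) h1
    have h3 : Real.log q = -L := by rw [hL, neg_neg]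
    rw [h3]
    have := mul_le_mul_of_nonneg_right hαL hn0.le
    linarith
  have hBc : (B.card : ℝ) ≤ 2 * 2 ^ n * Real.exp (-(2 * δ ^ 2 * n)) := by
    have h1 := hHOEF (Fin n) (δ * n) (by positivity) (by rw [Fintype.card_fin]; exact hn1)
    rw [← hB] at h1
    rw [Fintype.card_fin] at h1
    refine h1.trans (le_of_eq ?_)
    congr 2
    field_simp
  obtain ⟨e, he, heB⟩ := union_bound (d := d) Y B
    (c := 2 ^ (d + 1) / 2 ^ n * Real.exp (δ ^ 2 * n / 2)) (fun y hy z _ => by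
      refine (hFOU n d (K * n) y z hdn).trans ?_
      refine mul_le_mul_of_nonneg_left ?_ (Nat.cast_nonneg _)
      refine mul_le_mul_of_nonneg_left ?_ (by positivity)
      rw [hY, mem_filter] at hy
      have h1 : α * ((d : ℝ) + 1) / 8 ≤ 2 * wt y * (d + 1) / (n + d + 1) := by
        have hdn' : (d : ℝ) + 1 ≤ n := by exact_mod_cast hdn
        rw [div_le_div_iff₀ (by norm_num) (by positivity)]
        have h2 : α * n ≤ 8 * wt y := by linarith [hy.2.1]
        calc α * ((d : ℝ) + 1) * (n + d + 1) ≤ α * ((d : ℝ) + 1) * (2 * n) := by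
              refine mul_le_mul_of_nonneg_left (by linarith) (by positivity)
          _ = 2 * (α * n) * (d + 1) := by ring
          _ ≤ 2 * (8 * wt y) * (d + 1) := by
              refine mul_le_mul_of_nonneg_right ?_ (by positivity)
              linarith
          _ = 2 * wt y * (d + 1) * 8 := by ring
      have h3 : Real.exp (-(2 * wt y * (d + 1) / (n + d + 1))) ≤ δ ^ 2 / 2 :=
        (Real.exp_le_exp.2 (neg_le_neg h1)).trans hexp
      have h4 := Real.add_one_le_exp (Real.exp (-(2 * wt y * (d + 1) / (n + d + 1)) : ℝ))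
      calc (1 + Real.exp (-(2 * wt y * (d + 1) / (n + d + 1)))) ^ n
          ≤ (Real.exp (Real.exp (-(2 * wt y * (d + 1) / (n + d + 1))))) ^ n := by
            refine pow_le_pow_left₀ (by positivity) ?_ n
            linarith
        _ ≤ (Real.exp (δ ^ 2 / 2)) ^ n :=
            pow_le_pow_left₀ (Real.exp_pos _).le (Real.exp_le_exp.2 h3) n
        _ = Real.exp (δ ^ 2 * n / 2) := by
            rw [← Real.exp_nat_mul]
            congr 1
            ring) hdn
    (num_mat hn3 (Nat.cast_nonneg _) (by positivity) hYc hBc le_rfl)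
  refine ⟨e, partite_inj he, fun y hy1 hy2 => ?_⟩
  have h1 := heB y (by
    rw [hY, mem_filter]
    exact ⟨mem_univ _, hy1, hy2⟩)
  rw [hB, mem_filter, Fintype.card_fin] at h1
  push Not at h1
  exact (h1 (mem_univ _)).le

theorem mat (hFOU : T_FOU) (hHOEF : T_HOEF) : T_MAT := by
  intro δ hδ K hK
  obtain ⟨α, hα0, hα, d₀, h⟩ := mat_small hFOU hHOEF (δ := min δ 1) (lt_min hδ one_pos)
    (min_le_right _ _) K hK
  refine ⟨α, hα0, hα, d₀, fun d hd => ?_⟩
  obtain ⟨n₀, hn₀⟩ := h d hd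
  refine ⟨n₀, fun n hn => ?_⟩
  obtain ⟨e, he, hy⟩ := hn₀ n hn
  refine ⟨e, he, fun y h1 h2 => (hy y h1 h2).trans ?_⟩
  exact mul_le_mul_of_nonneg_right (min_le_left _ _) (Nat.cast_nonneg _)

end Pool.Agent.H27.SYM
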