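import Pool.Agent.H27.SYM.MAT

/-!
General form of the module MAT of the SYM project (MP_c62aed_lc).
-/

set_option autoImplicit false

open Finset

namespace Pool.Agent.H27.SYM

open Pool.Agent.H60.SYM

lemma num_gen {δ A g : ℝ} {n d : ℕ} (h : (d : ℝ) + 3 ≤ (2 * δ ^ 2 - A - g) * n) {a b c : ℝ}
    (hb : 0 ≤ b) (hc : 0 ≤ c) (h1 : a ≤ Real.exp (A * n))
    (h2 : b ≤ 2 * 2 ^ n * Real.exp (-(2 * δ ^ 2 * n)))
    (h3 : c ≤ 2 ^ (d + 1) / 2 ^ n * Real.exp (g * n)) :
    a * b * c < 1 := by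
  have h2e : (2 : ℝ) ≤ Real.exp 1 := by
    have := Real.add_one_le_exp (1 : ℝ)
    linarith
  have h5 : (2 : ℝ) ^ (d + 2) ≤ Real.exp (d + 2) := by
    calc (2 : ℝ) ^ (d + 2) ≤ Real.exp 1 ^ (d + 2) := pow_le_pow_left₀ (by norm_num) h2e _
      _ = Real.exp (d + 2) := by
        rw [← Real.exp_nat_mul]
        push_cast
        ring_nf
  calc a * b * c ≤ Real.exp (A * n) * (2 * 2 ^ n * Real.exp (-(2 * δ ^ 2 * n))) *
        (2 ^ (d + 1) / 2 ^ n * Real.exp (g * n)) := by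
        refine mul_le_mul ?_ h3 hc (by positivity)
        exact mul_le_mul h1 h2 hb (Real.exp_pos _).le
    _ = 2 ^ (d + 2) * (Real.exp (A * n) * Real.exp (-(2 * δ ^ 2 * n)) * Real.exp (g * n)) := by
        have : (2 : ℝ) ^ n ≠ 0 := by positivity
        field_simp
        ring
    _ = 2 ^ (d + 2) * Real.exp (-((2 * δ ^ 2 - A - g) * n)) := by
        rw [← Real.exp_add, ← Real.exp_add]
        ring_nf
    _ ≤ Real.exp (d + 2) * Real.exp (-((2 * δ ^ 2 - A - g) * n)) :=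
        mul_le_mul_of_nonneg_right h5 (Real.exp_pos _).le
    _ = Real.exp (d + 2 - (2 * δ ^ 2 - A - g) * n) := by rw [← Real.exp_add]; ring_nf
    _ < 1 := by
        rw [Real.exp_lt_one_iff]
        linarith

/-- the system, with explicit parameters -/
theorem mat_gen (hFOU : T_FOU) (hHOEF : T_HOEF) (d K : ℕ) (hK : 1 ≤ K) {α δ : ℝ} (hα0 : 0 < α)
    (hα4 : α ≤ 1 / 4) (hδ : 0 < δ)
    (hmain : α * Real.log (Real.exp 1 * K / α) + Real.exp (-(α * (d + 1) / 8)) < 2 * δ ^ 2) :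
    ∃ n₀ : ℕ, ∀ n ≥ n₀, ∃ e : Fin (K * n) → Fin (d + 1) → Fin n,
      (∀ i, Function.Injective (e i)) ∧
      ∀ y : Fin (K * n) → ZMod 2, α * n / 8 ≤ wt y → wt y ≤ α * n →
        |(wt (comb e y) : ℝ) - n / 2| ≤ δ * n := by
  classical
  have hK1 : (1 : ℝ) ≤ K := by exact_mod_cast hK
  have hK0 : (0 : ℝ) < K := by linarith
  obtain ⟨q, hq⟩ : ∃ q : ℝ, q = α / K := ⟨_, rfl⟩
  have hq0 : 0 < q := by rw [hq]; positivity
  have hq1 : q ≤ 1 := by
    rw [hq, div_le_one hK0]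
    linarith
  obtain ⟨A, hA⟩ : ∃ A : ℝ, A = α * Real.log (Real.exp 1 * K / α) := ⟨_, rfl⟩
  obtain ⟨g, hg⟩ : ∃ g : ℝ, g = Real.exp (-(α * (d + 1) / 8)) := ⟨_, rfl⟩
  rw [← hA, ← hg] at hmain
  have hgap : 0 < 2 * δ ^ 2 - A - g := by linarith
  have hAq : A = α * (1 - Real.log q) := by
    rw [hA, hq]
    congr 1
    rw [Real.log_div (by positivity) hα0.ne', Real.log_mul (Real.exp_pos 1).ne' hK0.ne',
      Real.log_exp, Real.log_div hα0.ne' hK0.ne']
    ring
  refine ⟨max (d + 1) ⌈((d : ℝ) + 3) / (2 * δ ^ 2 - A - g)⌉₊, fun n hn => ?_⟩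
  have hdn : d + 1 ≤ n := (le_max_left _ _).trans hn
  have hn3 : (d : ℝ) + 3 ≤ (2 * δ ^ 2 - A - g) * n := by
    have h1 : ((d : ℝ) + 3) / (2 * δ ^ 2 - A - g) ≤ n :=
      (Nat.le_ceil _).trans (Nat.cast_le.2 ((le_max_right _ _).trans hn))
    rw [div_le_iff₀ hgap] at h1
    linarith
  have hn1 : 0 < n := by omega
  have hn0 : (0 : ℝ) < n := by exact_mod_cast hn1
  obtain ⟨Y, hY⟩ : ∃ Y : Finset (Fin (K * n) → ZMod 2), Y = univ.filter fun y =>
    α * n / 8 ≤ wt y ∧ (wt y : ℝ) ≤ α * n := ⟨_, rfl⟩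
  obtain ⟨B, hB⟩ : ∃ B : Finset (Fin n → ZMod 2), B = univ.filter fun z =>
    δ * n ≤ |(wt z : ℝ) - Fintype.card (Fin n) / 2| := ⟨_, rfl⟩
  have hYc : (Y.card : ℝ) ≤ Real.exp (A * n) := by
    have h1 := card_small hq0 hq1 Y (s := α * n) (fun y hy => by
      rw [hY, mem_filter] at hy
      exact hy.2.2)
    have h2 : Real.exp (q * (K * n : ℕ)) = Real.exp (α * n) := by
      congr 1
      rw [hq]
      push_cast
      field_simp
    rw [h2] at h1
    have h4 := mul_le_mul_of_nonneg_right h1 (Real.exp_pos (-(α * n * Real.log q))).le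
    rw [mul_assoc, ← Real.exp_add, ← Real.exp_add, add_neg_cancel, Real.exp_zero, mul_one] at h4
    refine h4.trans (le_of_eq ?_)
    congr 1
    rw [hAq]
    ring
  have hBc : (B.card : ℝ) ≤ 2 * 2 ^ n * Real.exp (-(2 * δ ^ 2 * n)) := by
    have h1 := hHOEF (Fin n) (δ * n) (by positivity) (by rw [Fintype.card_fin]; exact hn1)
    rw [← hB] at h1
    rw [Fintype.card_fin] at h1
    refine h1.trans (le_of_eq ?_)
    congr 2
    field_simp
  obtain ⟨e, he, heB⟩ := union_bound (d := d) Y B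
    (c := 2 ^ (d + 1) / 2 ^ n * Real.exp (g * n)) (fun y hy z _ => by
      refine (hFOU n d (K * n) y z hdn).trans ?_
      refine mul_le_mul_of_nonneg_left ?_ (Nat.cast_nonneg _)
      refine mul_le_mul_of_nonneg_left ?_ (by positivity)
      rw [hY, mem_filter] at hy
      have h1 : α * ((d : ℝ) + 1) / 8 ≤ 2 * wt y * (d + 1) / (n + d + 1) := by
        have hdn' : (d : ℝ) + 1 ≤ n := by exact_mod_cast hdn
        rw [div_le_div_iff₀ (by norm_num) (by positivity)]
        have h2 : α * n ≤ 8 * wt y := by linarith [hy.2.1]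
        calc α * ((d : ℝ) + 1) * (n + d + 1) ≤ α * ((d : ℝ) + 1) * (2 * n) := by
              refine mul_le_mul_of_nonneg_left (by linarith) (by positivity)
          _ = 2 * (α * n) * (d + 1) := by ring
          _ ≤ 2 * (8 * wt y) * (d + 1) := by
              refine mul_le_mul_of_nonneg_right ?_ (by positivity)
              linarith
          _ = 2 * wt y * (d + 1) * 8 := by ring
      have h3 : Real.exp (-(2 * wt y * (d + 1) / (n + d + 1))) ≤ g := by
        rw [hg]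
        exact Real.exp_le_exp.2 (neg_le_neg h1)
      have h4 := Real.add_one_le_exp (Real.exp (-(2 * wt y * (d + 1) / (n + d + 1)) : ℝ))
      calc (1 + Real.exp (-(2 * wt y * (d + 1) / (n + d + 1)))) ^ n
          ≤ (Real.exp (Real.exp (-(2 * wt y * (d + 1) / (n + d + 1))))) ^ n := by
            refine pow_le_pow_left₀ (by positivity) ?_ n
            linarith
        _ ≤ (Real.exp g) ^ n :=
            pow_le_pow_left₀ (Real.exp_pos _).le (Real.exp_le_exp.2 h3) n
        _ = Real.exp (g * n) := by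
            rw [← Real.exp_nat_mul]
            congr 1
            ring) hdn
    (num_gen hn3 (Nat.cast_nonneg _) (by positivity) hYc hBc le_rfl)
  refine ⟨e, partite_inj he, fun y hy1 hy2 => ?_⟩
  have h1 := heB y (by
    rw [hY, mem_filter]
    exact ⟨mem_univ _, hy1, hy2⟩)
  rw [hB, mem_filter, Fintype.card_fin] at h1
  push Not at h1
  exact (h1 (mem_univ _)).le

end Pool.Agent.H27.SYM
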